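import Pool.Agent.H121.EU.Iface

/-!
# The odometer preserves the measure and is ergodic (statement `S_odoB` by helper121)
-/

set_option autoImplicit false

open scoped BigOperators Topology
open Filter MeasureTheory

namespace Pool.Agent.H385.EU

open Pool.Agent.H987.Y Pool.Agent.H121.EU

variable {d : ℕ} {Q : ℕ → ℕ}

lemma unif_prob (C : Type) [Fintype C] [Nonempty C] [MeasurableSpace C]
    [MeasurableSingletonClass C] : IsProbabilityMeasure (unif C) := by
  constructor
  unfold unif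
  rw [Measure.smul_apply, smul_eq_mul, ← Finset.coe_univ, Measure.count_apply_finset,
    Finset.card_univ]
  exact ENNReal.inv_mul_cancel (by simp) (by simp)

lemma unif_singleton (C : Type) [Fintype C] [MeasurableSpace C]
    [MeasurableSingletonClass C] (x : C) : unif C {x} = (Fintype.card C : ENNReal)⁻¹ := by
  unfold unif
  rw [Measure.smul_apply, smul_eq_mul, Measure.count_singleton, mul_one]

lemma hd_succ (u : Hu d Q) (n : ℕ) (i : Fin d) :
    hd (n + 1) u i = hd n u i + (pQ Q n : ℤ) * ((u n i : ℕ) : ℤ) := by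
  unfold hd
  rw [Finset.sum_range_succ]
  rfl

lemma pQ_pos (hQ : ∀ k, 0 < Q k) (n : ℕ) : 0 < pQ Q n := Finset.prod_pos fun k _ => hQ k

lemma pQ_dvd {k n : ℕ} (h : k ≤ n) : pQ Q k ∣ pQ Q n := by
  unfold pQ
  exact Finset.prod_dvd_prod_of_subset _ _ _ (Finset.range_mono h)

lemma hd_dvd (u : Hu d Q) (i : Fin d) {k n : ℕ} (h : k ≤ n) :
    (pQ Q k : ℤ) ∣ hd n u i - hd k u i := by
  induction n, h using Nat.le_induction with
  | base => simp
  | succ n hn ih =>
    rw [hd_succ]
    have h1 : (pQ Q k : ℤ) ∣ (pQ Q n : ℤ) := Int.natCast_dvd_natCast.2 (pQ_dvd hn)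
    have h2 : hd n u i + (pQ Q n : ℤ) * ((u n i : ℕ) : ℤ) - hd k u i =
        (hd n u i - hd k u i) + (pQ Q n : ℤ) * ((u n i : ℕ) : ℤ) := by ring
    rw [h2]
    exact dvd_add ih (h1.mul_right _)

/-- the bounds for the phases -/
def HB (d : ℕ) (Q : ℕ → ℕ) : Prop :=
  ∀ (u : Hu d Q) (n : ℕ) (i : Fin d), 0 ≤ hd n u i ∧ hd n u i < pQ Q n

lemma hd_emod (hb : HB d Q) (u : Hu d Q) (i : Fin d) {k n : ℕ} (h : k ≤ n) :
    hd k u i = hd n u i % (pQ Q k : ℤ) := by
  have h1 : hd k u i % (pQ Q k : ℤ) = hd n u i % (pQ Q k : ℤ) :=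
    Int.modEq_of_dvd (hd_dvd u i h)
  rw [← h1, Int.emod_eq_of_lt (hb u k i).1 (hb u k i).2]

lemma hd_le (hb : HB d Q) {u u' : Hu d Q} {k n : ℕ} (h : k ≤ n) (hn : hd n u = hd n u') :
    hd k u = hd k u' := by
  ext i
  rw [hd_emod hb u i h, hd_emod hb u' i h, hn]

lemma dig (hQ : ∀ k, 0 < Q k) (hb : HB d Q) {u u' : Hu d Q} {k : ℕ}
    (h : hd (k + 1) u = hd (k + 1) u') : u k = u' k := by
  have h1 := hd_le hb (Nat.le_succ k) h
  ext i
  have h2 := congrFun h i
  rw [hd_succ, hd_succ, congrFun h1 i] at h2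
  have h3 : (pQ Q k : ℤ) ≠ 0 := by exact_mod_cast (pQ_pos hQ k).ne'
  have h4 := mul_left_cancel₀ h3 (add_left_cancel h2)
  exact_mod_cast h4

/-- the cylinders -/
def Z (n : ℕ) (c : Lt d) : Set (Hu d Q) := {u | hd n u = c}

lemma Z_eq (hQ : ∀ k, 0 < Q k) (hb : HB d Q) (n : ℕ) (u₀ : Hu d Q) :
    Z n (hd n u₀) = Set.pi (Finset.range n : Set ℕ) (fun k => {u₀ k}) := by
  ext u
  rw [Set.mem_pi]
  constructor
  · intro h k hk
    rw [Finset.mem_coe, Finset.mem_range] at hk
    exact dig hQ hb (hd_le hb (Nat.succ_le_of_lt hk) h)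
  · intro h
    show hd n u = hd n u₀
    unfold hd
    refine Finset.sum_congr rfl fun k hk => ?_
    rw [h k (Finset.mem_coe.2 hk)]

lemma nonempty_Ph {k : ℕ} (hk : 0 < Q k) : Nonempty (Ph d (Q k)) := ⟨fun _ => ⟨0, hk⟩⟩

/-- the measure of the cylinders -/
noncomputable def pn (d : ℕ) (Q : ℕ → ℕ) (n : ℕ) : ENNReal :=
  ∏ k ∈ Finset.range n, (Fintype.card (Ph d (Q k)) : ENNReal)⁻¹

lemma meas_Z (hQ : ∀ k, 0 < Q k) (hb : HB d Q) (n : ℕ) (u₀ : Hu d Q) :
    PH d Q (Z n (hd n u₀)) = pn d Q n := by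
  have hp : ∀ k, IsProbabilityMeasure (unif (Ph d (Q k))) := fun k => by
    have := nonempty_Ph (d := d) (hQ k)
    exact unif_prob _
  rw [Z_eq hQ hb]
  unfold PH pn
  rw [Measure.infinitePi_pi _ (fun k _ => measurableSet_singleton _)]
  exact Finset.prod_congr rfl fun k _ => unif_singleton _ _

lemma measurable_hd (n : ℕ) : Measurable (fun u : Hu d Q => hd n u) := by
  rw [measurable_pi_iff]
  intro i
  have h1 : (fun u : Hu d Q => hd n u i) = fun u =>
      ∑ k ∈ Finset.range n, (pQ Q k : ℤ) * ((u k i : ℕ) : ℤ) := by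
    ext u
    unfold hd
    rw [Finset.sum_apply]
    rfl
  rw [h1]
  refine Finset.measurable_fun_sum _ fun k _ => ?_
  have h2 : Measurable fun x : Fin (Q k) => (pQ Q k : ℤ) * ((x : ℕ) : ℤ) := measurable_of_finite _
  exact h2.comp ((measurable_pi_apply i).comp (measurable_pi_apply k))

lemma measurableSet_Z (n : ℕ) (c : Lt d) : MeasurableSet (Z n c : Set (Hu d Q)) :=
  measurable_hd n (measurableSet_singleton c)

lemma measurable_odo (hQ : ∀ k, 0 < Q k) (v : Lt d) : Measurable (odo (Q := Q) v) := by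
  rw [measurable_pi_iff]
  intro k
  rw [measurable_pi_iff]
  intro i
  have h1 : Measurable (fun z : ℤ => (⟨(((z + v i) % (pQ Q (k + 1) : ℤ)) /
      (pQ Q k : ℤ)).toNat % Q k, Nat.mod_lt _ (hQ k)⟩ : Fin (Q k))) := measurable_of_countable _
  exact h1.comp ((measurable_pi_apply i).comp (measurable_hd (k + 1)))

/-- the cylinders form a generating system -/
def CC (d : ℕ) (Q : ℕ → ℕ) : Set (Set (Hu d Q)) := {s | ∃ (n : ℕ) (c : Lt d), s = Z n c}

lemma CC_pi (hb : HB d Q) : IsPiSystem (CC d Q) := by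
  rintro s ⟨n, c, rfl⟩ t ⟨m, c', rfl⟩ ⟨w, hw, hw'⟩
  have hw1 : hd n w = c := hw
  have hw2 : hd m w = c' := hw'
  subst hw1 hw2
  rcases le_total n m with h | h
  · refine ⟨m, hd m w, ?_⟩
    ext u
    constructor
    · exact fun hu => hu.2
    · exact fun hu => ⟨hd_le hb h hu, hu⟩
  · refine ⟨n, hd n w, ?_⟩
    ext u
    constructor
    · exact fun hu => hu.1
    · exact fun hu => ⟨hu, hd_le hb h hu⟩

lemma CC_gen (hQ : ∀ k, 0 < Q k) (hb : HB d Q) :
    (MeasurableSpace.pi : MeasurableSpace (Hu d Q)) = MeasurableSpace.generateFrom (CC d Q) := by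
  apply le_antisymm
  · have key : ∀ k, Measurable[MeasurableSpace.generateFrom (CC d Q)] fun u : Hu d Q => u k := by
      intro k
      refine @measurable_to_countable' _ _ _ _ (MeasurableSpace.generateFrom (CC d Q)) _ fun x => ?_
      have h1 : (fun u : Hu d Q => u k) ⁻¹' {x} =
          ⋃ c ∈ {c : Lt d | ∃ u₀ : Hu d Q, u₀ k = x ∧ hd (k + 1) u₀ = c}, Z (k + 1) c := by
        ext u
        simp only [Set.mem_iUnion, exists_prop]
        constructor
        · intro hu
          exact ⟨hd (k + 1) u, ⟨u, hu, rfl⟩, rfl⟩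
        · rintro ⟨c, ⟨u₀, h1, h2⟩, h3⟩
          have h4 : hd (k + 1) u = hd (k + 1) u₀ := by
            rw [h2]; exact h3
          show u k = x
          rw [← h1]
          exact dig hQ hb h4
      rw [h1]
      refine MeasurableSet.biUnion (Set.to_countable _) fun c _ => ?_
      exact MeasurableSpace.measurableSet_generateFrom ⟨k + 1, c, rfl⟩
    refine iSup_le fun k => ?_
    exact (key k).comap_le
  · apply MeasurableSpace.generateFrom_le
    rintro s ⟨n, c, rfl⟩
    exact measurableSet_Z n c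

theorem odoB (hA : S_odoA) : S_odoB := by
  intro d Q hQ
  obtain ⟨hb, ho, hi, h0, hadd⟩ := hA d Q hQ
  have hb' : HB d Q := hb
  have hp : ∀ k, IsProbabilityMeasure (unif (Ph d (Q k))) := fun k => by
    have := nonempty_Ph (d := d) (hQ k)
    exact unif_prob _
  have hP : IsProbabilityMeasure (PH d Q) := by
    unfold PH
    infer_instance
  -- the odometer respects the cylinders
  have hcong : ∀ (v : Lt d) (n : ℕ) (u u' : Hu d Q), hd n u = hd n u' →
      hd n (odo v u) = hd n (odo v u') := by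
    intro v n u u' h
    ext i
    rw [ho, ho, h]
  have hpre : ∀ (v : Lt d) (n : ℕ) (u₀ : Hu d Q),
      odo v ⁻¹' (Z (Q := Q) n (hd n u₀)) = Z n (hd n (odo (-v) u₀)) := by
    intro v n u₀
    ext u
    constructor
    · intro h
      have h1 := hcong (-v) n (odo v u) u₀ h
      rw [← hadd, neg_add_cancel, h0] at h1
      exact h1
    · intro h
      have h1 := hcong v n u (odo (-v) u₀) h
      rw [← hadd, add_neg_cancel, h0] at h1
      exact h1
  have hpres : ∀ v : Lt d, MeasurePreserving (odo v) (PH d Q) (PH d Q) := by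
    intro v
    refine ⟨measurable_odo hQ v, ?_⟩
    have hmap : IsProbabilityMeasure ((PH d Q).map (odo v)) :=
      Measure.isProbabilityMeasure_map (measurable_odo hQ v).aemeasurable
    refine ext_of_generate_finite (CC d Q) (CC_gen hQ hb') (CC_pi hb') ?_ (by simp)
    rintro s ⟨n, c, rfl⟩
    rw [Measure.map_apply (measurable_odo hQ v) (measurableSet_Z n c)]
    rcases Set.eq_empty_or_nonempty (Z n c : Set (Hu d Q)) with h | ⟨u₀, hu₀⟩
    · rw [h]; simp
    · have h1 : hd n u₀ = c := hu₀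
      rw [← h1, hpre, meas_Z hQ hb', meas_Z hQ hb']
  refine ⟨hpres, fun T hT hinv => ?_⟩
  -- the cylinders of the same order meet the set in the same measure
  have hsame : ∀ (n : ℕ) (u₀ u₁ : Hu d Q),
      PH d Q (T ∩ Z n (hd n u₀)) = PH d Q (T ∩ Z n (hd n u₁)) := by
    intro n u₀ u₁
    set v : Lt d := hd n u₁ - hd n u₀ with hv
    have h1 : hd n (odo v u₀) = hd n u₁ := by
      ext i
      rw [ho, hv, Pi.sub_apply, add_sub_cancel, Int.emod_eq_of_lt (hb u₁ n i).1 (hb u₁ n i).2]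
    have h2 : odo v ⁻¹' (Z (Q := Q) n (hd n u₁)) = Z n (hd n u₀) := by
      rw [← h1, hpre, ← hadd, neg_add_cancel, h0]
    have h3 : T ∩ Z n (hd n u₀) = odo v ⁻¹' (T ∩ Z n (hd n u₁)) := by
      rw [Set.preimage_inter, h2, hinv v]
    rw [h3]
    exact (hpres v).measure_preimage (hT.inter (measurableSet_Z _ _)).nullMeasurableSet
  have hne : Nonempty (Hu d Q) := ⟨fun k => (nonempty_Ph (hQ k)).some⟩
  have hfin : ∀ n : ℕ, (Set.range fun u : Hu d Q => hd n u).Finite := by
    intro n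
    have h1 : (Set.range fun u : Hu d Q => hd n u) ⊆
        Set.pi Set.univ (fun _ : Fin d => Set.Ico (0:ℤ) (pQ Q n)) := by
      rintro _ ⟨u, rfl⟩ i _
      exact ⟨(hb u n i).1, (hb u n i).2⟩
    exact (Set.Finite.pi' fun _ => Set.finite_Ico _ _).subset (fun c hc i => h1 hc i trivial)
  have hsum : ∀ (n : ℕ) (u₀ : Hu d Q) (S : Set (Hu d Q)), MeasurableSet S →
      (∀ u₁ : Hu d Q, PH d Q (S ∩ Z n (hd n u₁)) = PH d Q (S ∩ Z n (hd n u₀))) →
      PH d Q S = ((hfin n).toFinset.card : ENNReal) * PH d Q (S ∩ Z n (hd n u₀)) := by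
    intro n u₀ S hS h
    have h1 := sum_measure_preimage_singleton (μ := (PH d Q).restrict S) (hfin n).toFinset
      (f := fun u : Hu d Q => hd n u) (fun c _ => measurable_hd n (measurableSet_singleton c))
    have h2 : (fun u : Hu d Q => hd n u) ⁻¹' ((hfin n).toFinset : Set (Lt d)) = Set.univ := by
      ext u
      simp
    rw [h2, Measure.restrict_apply_univ] at h1
    rw [← h1]
    have h3 : ∀ c ∈ (hfin n).toFinset, ((PH d Q).restrict S)
        ((fun u : Hu d Q => hd n u) ⁻¹' {c}) = PH d Q (S ∩ Z n (hd n u₀)) := by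
      intro c hc
      rw [Set.Finite.mem_toFinset] at hc
      obtain ⟨u₁, rfl⟩ := hc
      rw [Measure.restrict_apply (measurable_hd n (measurableSet_singleton _)), Set.inter_comm]
      exact h u₁
    rw [Finset.sum_congr rfl h3, Finset.sum_const, nsmul_eq_mul]
  have hind : ∀ (n : ℕ) (u₀ : Hu d Q),
      PH d Q (T ∩ Z n (hd n u₀)) = PH d Q T * PH d Q (Z n (hd n u₀)) := by
    intro n u₀
    have h1 := hsum n u₀ T hT (fun u₁ => hsame n u₁ u₀)
    have h2 := hsum n u₀ Set.univ MeasurableSet.univ (fun u₁ => by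
      rw [Set.univ_inter, Set.univ_inter, meas_Z hQ hb', meas_Z hQ hb'])
    rw [measure_univ, Set.univ_inter] at h2
    rw [h1, mul_right_comm, ← h2, one_mul]
  have heq : (PH d Q).restrict T = (PH d Q T) • PH d Q := by
    refine ext_of_generate_finite (CC d Q) (CC_gen hQ hb') (CC_pi hb') ?_ (by simp)
    rintro s ⟨n, c, rfl⟩
    rw [Measure.restrict_apply (measurableSet_Z n c), Measure.smul_apply, smul_eq_mul,
      Set.inter_comm]
    rcases Set.eq_empty_or_nonempty (Z n c : Set (Hu d Q)) with h | ⟨u₀, hu₀⟩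
    · rw [h]; simp
    · have h1 : hd n u₀ = c := hu₀
      rw [← h1]
      exact hind n u₀
  have hTT : PH d Q T = PH d Q T * PH d Q T := by
    have h1 := congrArg (fun μ => μ T) heq
    simp only [Measure.smul_apply, smul_eq_mul] at h1
    rw [Measure.restrict_apply hT, Set.inter_self] at h1
    exact h1
  by_cases h : PH d Q T = 0
  · exact Or.inl h
  · right
    have hf : PH d Q T ≠ ⊤ := measure_ne_top _ _
    have h1 : PH d Q T * 1 = PH d Q T * PH d Q T := by rw [mul_one]; exact hTT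
    exact ((ENNReal.mul_right_inj h hf).1 h1).symm

end Pool.Agent.H385.EU
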